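import Pool.Agent.Q94.GD.K1
import Pool.Agent.Q94.GD.K2
import Pool.Agent.Q94.GD.K3
import Pool.Agent.Q94.GD.K4
import Pool.Agent.Q94.GD.K5
import Pool.Agent.Q94.GD.K6
import Pool.Agent.Q94.GD.K7
import Pool.Agent.Q94.GD.K8
import Pool.Agent.Q94.GD.K9
import Pool.Agent.Q94.GD.K10

open Set Filter Topology

namespace Pool.Agent.Results.MP_b6986b_an.NonMonotoneWave

open Q94.GD

/-- There are a fitness cost `s ∈ (0,1)`, an intrinsic growth rate `r > 0`, a speed `c` and a
nontrivial traveling wave `(P, N)` of the gene drive system (bounded, classical, `P ≥ 0`, `N > 0`,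
`(P, N) → (0, 1)` at `-∞`) such that `P` is not nondecreasing. -/
theorem result : ∃ s r c : ℝ, 0 < s ∧ s < 1 ∧ 0 < r ∧ ∃ P N : ℝ → ℝ,
    IsTravelingWave s r c P N ∧ (∃ ξ, P ξ ≠ 0) ∧ ¬ Monotone P := by
  have h1a := j1a
  have h1b := j1b h1a
  have h2 := j2
  have h3 := j3 h2
  have h4 := j4 h2 h3
  have h5 := j5
  have h6 := j6 h2 h3 h5
  have h7 := j7 h2 h3
  have h8 := j8 h1b h2 h3 h5 h6 h7
  have h9 := j9 h2 h4
  obtain ⟨x, hx⟩ := j10 h1a h1b h2 h8 h9
  have hh : (0 : ℝ) < h := by unfold h; norm_num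
  have hth : 0 < th := by unfold th; positivity
  refine ⟨(1 + h ^ 2) / 2, 4, h / 8, by positivity, by unfold h; norm_num, by norm_num,
    fun ξ => th * x (h * ξ) 0, fun ξ => 1 - h ^ 2 * x (h * ξ) 2,
    j12 h2 x hx (j11a h2 x hx) (j11b h2 x hx), ⟨0, ?_⟩, ?_⟩
  · simp only [mul_zero, hx.2.1, mul_one]
    exact hth.ne'
  · intro hmono
    refine j11c h2 x hx ?_
    intro a b hab
    have := hmono (div_le_div_of_nonneg_right hab hh.le : a / h ≤ b / h)
    simp only [mul_div_cancel₀ _ hh.ne'] at this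
    exact le_of_mul_le_mul_left this hth

end Pool.Agent.Results.MP_b6986b_an.NonMonotoneWave
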